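import Pool.Agent.H17.UN.Tow

set_option autoImplicit false

open Polynomial
open Pool.Agent.H17.UN

namespace Pool.Agent.H55.UN

section

variable {k R L : Type*} [Field k] [CommRing R] [Algebra k R] [Field L] [Algebra k L]

theorem wd_EVL (ι : R →ₐ[k] L) (hι : Function.Injective ι) (Θ : R →ₐ[k] k) {x : L}
    {p q p' q' : R} (hq : Θ q ≠ 0) (hx : x * ι q = ι p) (hq' : Θ q' ≠ 0)
    (hx' : x * ι q' = ι p') : Θ p / Θ q = Θ p' / Θ q' := by
  have h1 : ι (p * q') = ι (p' * q) := by
    rw [map_mul, map_mul, ← hx, ← hx']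
    ring
  have h2 : p * q' = p' * q := hι h1
  have h3 : Θ p * Θ q' = Θ p' * Θ q := by rw [← map_mul, h2, map_mul]
  rw [div_eq_div_iff hq hq', h3]

theorem gen_EVL (ι : R →ₐ[k] L) (hι : Function.Injective ι) (Θ : R →ₐ[k] k) :
    ∃ (S : Subalgebra k L) (ψ : S →ₐ[k] k), ∀ (x : L) (p q : R), Θ q ≠ 0 → x * ι q = ι p →
      ∃ h : x ∈ S, ψ ⟨x, h⟩ = Θ p / Θ q := by
  classical
  let S : Subalgebra k L :=
    { carrier := {x | ∃ p q : R, Θ q ≠ 0 ∧ x * ι q = ι p}
      mul_mem' := by
        rintro x y ⟨p, q, hq, hx⟩ ⟨p', q', hq', hy⟩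
        refine ⟨p * p', q * q', ?_, ?_⟩
        · rw [map_mul]
          exact mul_ne_zero hq hq'
        · rw [map_mul, map_mul, ← hx, ← hy]
          ring
      add_mem' := by
        rintro x y ⟨p, q, hq, hx⟩ ⟨p', q', hq', hy⟩
        refine ⟨p * q' + p' * q, q * q', ?_, ?_⟩
        · rw [map_mul]
          exact mul_ne_zero hq hq'
        · rw [map_add, map_mul, map_mul, map_mul, ← hx, ← hy]
          ring
      algebraMap_mem' := by
        intro c
        refine ⟨algebraMap k R c, 1, ?_, ?_⟩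
        · rw [map_one]
          exact one_ne_zero
        · rw [map_one, mul_one, AlgHom.commutes] }
  have hmem : ∀ x : L, x ∈ S ↔ ∃ p q : R, Θ q ≠ 0 ∧ x * ι q = ι p := fun x => Iff.rfl
  have hS : ∀ x : S, ∃ p q : R, Θ q ≠ 0 ∧ (x : L) * ι q = ι p := fun x => (hmem x).1 x.2
  choose P Q hQ hPQ using hS
  have key : ∀ (x : S) (p q : R), Θ q ≠ 0 → (x : L) * ι q = ι p →
      Θ (P x) / Θ (Q x) = Θ p / Θ q := fun x p q hq hx =>
    wd_EVL ι hι Θ (hQ x) (hPQ x) hq hx
  let ψ : S →ₐ[k] k :=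
    { toFun := fun x => Θ (P x) / Θ (Q x)
      map_one' := by
        have h1 : Θ (1 : R) ≠ 0 := by
          rw [map_one]
          exact one_ne_zero
        have h := key 1 1 1 h1 (by rw [map_one]; exact mul_one _)
        rw [h, map_one, div_one]
      map_mul' := by
        intro x y
        have hq : Θ (Q x * Q y) ≠ 0 := by
          rw [map_mul]
          exact mul_ne_zero (hQ x) (hQ y)
        have h := key (x * y) (P x * P y) (Q x * Q y) hq (by
          rw [map_mul, map_mul, ← hPQ x, ← hPQ y, Subalgebra.coe_mul]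
          ring)
        rw [h, map_mul, map_mul, mul_div_mul_comm]
      map_zero' := by
        have h1 : Θ (1 : R) ≠ 0 := by
          rw [map_one]
          exact one_ne_zero
        have h := key 0 0 1 h1 (by rw [map_zero, Subalgebra.coe_zero, zero_mul])
        rw [h, map_zero, zero_div]
      map_add' := by
        intro x y
        have hq : Θ (Q x * Q y) ≠ 0 := by
          rw [map_mul]
          exact mul_ne_zero (hQ x) (hQ y)
        have h := key (x + y) (P x * Q y + P y * Q x) (Q x * Q y) hq (by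
          rw [map_add, map_mul, map_mul, map_mul, ← hPQ x, ← hPQ y, Subalgebra.coe_add]
          ring)
        rw [h, map_add, map_mul, map_mul, map_mul, div_add_div _ _ (hQ x) (hQ y)]
        ring
      commutes' := by
        intro c
        have h1 : Θ (1 : R) ≠ 0 := by
          rw [map_one]
          exact one_ne_zero
        have h := key (algebraMap k S c) (algebraMap k R c) 1 h1 (by
          rw [map_one, mul_one, AlgHom.commutes]
          rfl)
        rw [h, map_one, div_one, AlgHom.commutes] }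
  refine ⟨S, ψ, fun x p q hq hx => ⟨⟨p, q, hq, hx⟩, ?_⟩⟩
  exact key ⟨x, ⟨p, q, hq, hx⟩⟩ p q hq hx

end

theorem zp_EVL {L : Type*} [Field L] (x : L) (hx : x ≠ 0) (n : ℤ) :
    x ^ n * x ^ (-n).toNat = x ^ n.toNat := by
  rw [← zpow_natCast x (-n).toNat, ← zpow_natCast x n.toNat, ← zpow_add₀ hx]
  congr 1
  omega

theorem pf_EVL : T_EVL := by
  intro K L _ _ _ F Kb Ω m A i₀ φ r t _ hal
  let ι : MvPolynomial (Fin r) (A i₀) →ₐ[Kb] L :=
    ((MvPolynomial.aeval (R := Fb F Kb) (fun j => (t j : L))).restrictScalars Kb).comp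
      (MvPolynomial.mapAlgHom (A i₀).val)
  have hι : Function.Injective ι := by
    have h1 : Function.Injective
        (MvPolynomial.aeval (R := Fb F Kb) (fun j => (t j : L))) := hal
    have h2 : Function.Injective (MvPolynomial.map (σ := Fin r) ((A i₀).val : A i₀ →+* Fb F Kb)) :=
      MvPolynomial.map_injective _ Subtype.val_injective
    exact h1.comp h2
  have hι2 : ∀ (a : A i₀) (e : Fin r → ℕ), ι (MvPolynomial.C a * ∏ j, MvPolynomial.X j ^ e j) =
      ((a : Fb F Kb) : L) * ∏ j, (t j : L) ^ e j := by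
    intro a e
    rw [map_mul, map_prod]
    congr 1
    · change MvPolynomial.aeval (R := Fb F Kb) (fun j => (t j : L))
        (MvPolynomial.map ((A i₀).val : A i₀ →+* Fb F Kb) (MvPolynomial.C a)) = _
      rw [MvPolynomial.map_C, MvPolynomial.aeval_C]
      rfl
    · refine Finset.prod_congr rfl fun j _ => ?_
      rw [map_pow]
      congr 1
      change MvPolynomial.aeval (R := Fb F Kb) (fun j => (t j : L))
        (MvPolynomial.map ((A i₀).val : A i₀ →+* Fb F Kb) (MvPolynomial.X j)) = _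
      rw [MvPolynomial.map_X, MvPolynomial.aeval_X]
  let Θ : MvPolynomial (Fin r) (A i₀) →ₐ[Kb] Kb := MvPolynomial.aevalTower φ (fun _ => 1)
  have hΘ : ∀ (a : A i₀) (e : Fin r → ℕ), Θ (MvPolynomial.C a * ∏ j, MvPolynomial.X j ^ e j) =
      φ a := by
    intro a e
    rw [map_mul, map_prod]
    have h1 : Θ (MvPolynomial.C a) = φ a := MvPolynomial.aevalTower_C φ _ a
    rw [h1]
    have h2 : ∀ j : Fin r, Θ (MvPolynomial.X j ^ e j) = 1 := by
      intro j
      have h3 : Θ (MvPolynomial.X j) = 1 := MvPolynomial.aevalTower_X φ _ j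
      rw [map_pow, h3, one_pow]
    rw [Finset.prod_congr rfl fun j _ => h2 j, Finset.prod_const_one, mul_one]
  obtain ⟨S, ψ, hψ⟩ := gen_EVL (k := Kb) (R := MvPolynomial (Fin r) (A i₀)) (L := L) ι hι Θ
  refine ⟨S, ψ, ?_⟩
  rintro f n c ⟨a, b, hb, hfb, hab⟩
  have hq : Θ (MvPolynomial.C b * ∏ j, MvPolynomial.X j ^ (-n j).toNat) ≠ 0 := by
    rw [hΘ]
    exact hb
  have hmon : ((mon t f n : Lˣ) : L) = ((f : Fb F Kb) : L) * ∏ j, (t j : L) ^ n j := by
    unfold mon
    rw [Units.val_mul, Units.coe_prod]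
    congr 1
    refine Finset.prod_congr rfl fun j _ => ?_
    rw [Units.val_zpow_eq_zpow_val]
  have hfb' : ((f : Fb F Kb) : L) * ((b : Fb F Kb) : L) = ((a : Fb F Kb) : L) := by
    rw [← hfb]
    rfl
  have hx : ((mon t f n : Lˣ) : L) * ι (MvPolynomial.C b * ∏ j, MvPolynomial.X j ^ (-n j).toNat) =
      ι (MvPolynomial.C a * ∏ j, MvPolynomial.X j ^ (n j).toNat) := by
    rw [hι2, hι2, hmon, ← hfb']
    have h1 : (∏ j, (t j : L) ^ (n j).toNat) =
        (∏ j, (t j : L) ^ n j) * ∏ j, (t j : L) ^ (-n j).toNat := by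
      rw [← Finset.prod_mul_distrib]
      exact Finset.prod_congr rfl fun j _ => (zp_EVL _ (t j).ne_zero (n j)).symm
    rw [h1]
    ring
  obtain ⟨h, h2⟩ := hψ _ _ _ hq hx
  refine ⟨h, ?_⟩
  rw [h2, hΘ, hΘ, hab, mul_div_assoc, div_self hb, mul_one]

end Pool.Agent.H55.UN
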